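import Pool.Agent.Lib.MP_aa40d3_nt.OL.Stmt

/-! Definitions used in the statement: systems with residues in a Lie algebra. -/

open Polynomial Matrix

namespace Pool.Agent.GR.OG

open OP

variable {n r : ℕ}

/-- `g` is a Lie algebra of traceless matrices without proper invariant subspace, it contains the
residues up to scalars, and a stable module of polynomial matrices with values in `g` is zero or
contains a non-zero multiple of every member of `g`. -/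
def LieSys (t : Fin n → ℂ) (A : Fin n → Matrix (Fin r) (Fin r) ℂ)
    (g : Submodule ℂ (Matrix (Fin r) (Fin r) ℂ)) : Prop :=
  (∀ a ∈ g, a.trace = 0) ∧ (∀ a ∈ g, ∀ b ∈ g, a * b - b * a ∈ g) ∧
    (∀ U : Submodule ℂ (Fin r → ℂ), (∀ a ∈ g, ∀ v ∈ U, a *ᵥ v ∈ U) → U = ⊥ ∨ U = ⊤) ∧
    (∀ i, ∃ c : ℂ, A i - c • (1 : Matrix (Fin r) (Fin r) ℂ) ∈ g) ∧
    ∀ V : Submodule ℂ[X] (Matrix (Fin r) (Fin r) ℂ[X]), (∀ Φ ∈ V, ∀ z, Φ.map (eval z) ∈ g) →
      Stab t A V → V = ⊥ ∨ ∀ a ∈ g, ∃ q : ℂ[X], q ≠ 0 ∧ q • a.map C ∈ V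

/-- The exponential `exp (2 π i B)` has at least two eigenvalues. -/
def Two (B : Matrix (Fin r) (Fin r) ℂ) : Prop :=
  ∀ c : ℂ, ¬ IsNilpotent (NormedSpace.exp ((2 * Real.pi * Complex.I : ℂ) • B) -
    c • (1 : Matrix (Fin r) (Fin r) ℂ))

end Pool.Agent.GR.OG
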