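import Pool.Agent.Lib.MP_aa40d3_nt.OG.Exp

/-! Every semisimple member is conjugate into one fixed Cartan subalgebra. -/

open Matrix NormedSpace Filter Topology LieSubalgebra LieAlgebra
open scoped Matrix.Norms.Operator

namespace Pool.Agent.GR.OG

open OP

attribute [local instance 100] LieRing.ofAssociativeRing

variable {r : ℕ} {L : LieSubalgebra ℂ (Mt r)}

/-- Conjugation as an endomorphism of the Lie algebra. -/
noncomputable def cjH {g : (Mt r)ˣ} (hg : g ∈ GW L.toSubmodule) : L →ₗ[ℂ] L where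
  toFun z := ⟨g.val * z.1 * (g⁻¹).val, GW_conj (fun _ ha _ hb => L.lie_mem ha hb) hg z.2⟩
  map_add' a b := Subtype.ext (by simp [mul_add, add_mul])
  map_smul' c a := Subtype.ext (by simp)

theorem cjH_lie {g : (Mt r)ˣ} (hg : g ∈ GW L.toSubmodule) (x y : L) :
    cjH hg ⁅x, y⁆ = ⁅cjH hg x, cjH hg y⁆ := Subtype.ext (by
  change g.val * (x.1 * y.1 - y.1 * x.1) * (g⁻¹).val =
    g.val * x.1 * (g⁻¹).val * (g.val * y.1 * (g⁻¹).val) -
      g.val * y.1 * (g⁻¹).val * (g.val * x.1 * (g⁻¹).val)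
  simp only [mul_sub, sub_mul, mul_assoc, Units.inv_mul_cancel_left])

theorem cjH_inv {g : (Mt r)ˣ} (hg : g ∈ GW L.toSubmodule) (x : L) :
    cjH (inv_mem hg) (cjH hg x) = x := Subtype.ext (by
  change (g⁻¹).val * (g.val * x.1 * (g⁻¹).val) * (g⁻¹⁻¹).val = _
  simp only [inv_inv, mul_assoc, Units.inv_mul_cancel_left, Units.inv_mul, mul_one])

theorem cjH_engel {g : (Mt r)ˣ} (hg : g ∈ GW L.toSubmodule) {x y : L} (h : y ∈ engel ℂ x) :
    cjH hg y ∈ engel ℂ (cjH hg x) := by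
  obtain ⟨n, hn⟩ := (mem_engel_iff ℂ x y).1 h
  have e : ∀ n : ℕ, (ad ℂ L (cjH hg x) ^ n) (cjH hg y) = cjH hg ((ad ℂ L x ^ n) y) := fun n => by
    induction n with
    | zero => rfl
    | succ n ih => rw [pow_succ', pow_succ', Module.End.mul_apply, Module.End.mul_apply, ih,
        ad_apply, ad_apply, cjH_lie]
  exact (mem_engel_iff ℂ _ _).2 ⟨n, by rw [e, hn, map_zero]⟩

theorem exists_proj (V : Submodule ℂ (Mt r)) :
    ∃ p : Mt r →L[ℂ] Mt r, (∀ x, p x ∈ V) ∧ ∀ x ∈ V, p x = x := by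
  obtain ⟨f, hf⟩ := V.subtype.exists_leftInverse_of_injective V.ker_subtype
  exact ⟨(V.subtype ∘ₗ f).toContinuousLinearMap, fun x => (f x).2, fun x hx =>
    congrArg Subtype.val (LinearMap.congr_fun hf ⟨x, hx⟩)⟩

theorem open_conj (X : L) : ∀ᶠ Y in 𝓝 X.1, ∀ hY : Y ∈ L, ∃ g, ∃ hg : g ∈ GW L.toSubmodule,
    ∃ H ∈ engel ℂ X, cjH hg H = ⟨Y, hY⟩ := by
  obtain ⟨C, hC⟩ := L.toSubmodule.exists_isCompl
  obtain ⟨p, p1, p2⟩ := exists_proj L.toSubmodule
  obtain ⟨q, q1, q2⟩ := exists_proj ((engel ℂ X).toSubmodule.map L.toSubmodule.subtype)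
  obtain ⟨u, u1, u2⟩ := exists_proj C
  let a : Mt r × Mt r × Mt r →L[ℂ] Mt r := p ∘L ContinuousLinearMap.fst ℂ _ _
  let b : Mt r × Mt r × Mt r →L[ℂ] Mt r := q ∘L ContinuousLinearMap.fst ℂ _ _ ∘L
    ContinuousLinearMap.snd ℂ _ _
  let c : Mt r × Mt r × Mt r →L[ℂ] Mt r := u ∘L ContinuousLinearMap.snd ℂ _ _ ∘L
    ContinuousLinearMap.snd ℂ _ _
  have h0 : ∀ f : Mt r × Mt r × Mt r →L[ℂ] Mt r, HasStrictFDerivAt (fun p => exp (f p)) f 0 :=
    fun f => by
      have := HasStrictFDerivAt.comp (f := f) 0 ((map_zero f).symm ▸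
        hasStrictFDerivAt_exp_zero (𝕂 := ℂ) (𝔸 := Mt r)) f.hasStrictFDerivAt
      exact this
  have h1 := ((((h0 a).mul' (b.hasStrictFDerivAt.const_add X.1)).mul' (h0 (-a))).add
    c.hasStrictFDerivAt).map_nhds_eq_of_surj (LinearMap.range_eq_top.2 fun y => by
      obtain ⟨w, hw, z, hz, rfl⟩ :=
        Submodule.mem_sup.1 (hC.sup_eq_top.ge (Submodule.mem_top (x := y)))
      obtain ⟨n, hn⟩ := eventually_atTop.1 (ad ℂ L X).eventually_codisjoint_ker_pow_range_pow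
      obtain ⟨k, hk, _, ⟨v, rfl⟩, e⟩ := Submodule.mem_sup.1
        ((hn (n + 1) n.le_succ).top_le (Submodule.mem_top (x := (⟨w, hw⟩ : L))))
      rw [pow_succ', Module.End.mul_apply] at e
      generalize (ad ℂ L X ^ n) v = v at e
      have e' : k.1 + (X.1 * v.1 - v.1 * X.1) = w := congrArg Subtype.val e
      refine ⟨(-v.1, k.1, z), ?_⟩
      have e2 : q k.1 = k.1 := q2 _ ⟨k, (mem_engel_iff ℂ X k).2 ⟨_, hk⟩, rfl⟩
      simp [a, b, c, ← e', p2 _ v.2, u2 _ hz, e2]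
      abel)
  have h2 := h1 ▸ range_mem_map
  simp only [Pi.add_apply, Pi.mul_apply, map_zero, exp_zero, add_zero, one_mul, mul_one] at h2
  filter_upwards [h2]
  rintro _ ⟨x, rfl⟩ hY
  obtain ⟨H, hH, e1⟩ := q1 x.2.1
  have e : (cjH (eU_mem (p1 x.1)) (X + H)).1 + c x =
      exp (a x) * (X.1 + b x) * exp (-a x) + c x :=
    congrArg (fun z => exp (a x) * (X.1 + z) * exp (-a x) + c x) e1
  have hz : c x = 0 := Submodule.disjoint_def.1 hC.disjoint _
    ((L.toSubmodule.add_mem_iff_right (cjH (eU_mem (p1 x.1)) (X + H)).2).1 (e ▸ hY)) (u1 _)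
  refine ⟨_, eU_mem (p1 x.1), X + H, add_mem (self_mem_engel ℂ X) hH, Subtype.ext ?_⟩
  exact ((add_zero _).symm.trans (by rw [hz])).trans e

theorem fin_line (X : L) {Y : L} (hY : IsRegular ℂ Y) :
    {s : ℂ | ¬ IsRegular ℂ (s • (Y - X) + X)}.Finite := by
  obtain ⟨p, hp⟩ : ∃ p : Polynomial (Polynomial ℂ), ∀ s : ℂ, p.map (Polynomial.evalRingHom s) =
      (ad ℂ L (s • (Y - X) + X)).charpoly :=
    ⟨_, engel_isBot_of_isMin.lieCharpoly_map_eval L X (Y - X)⟩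
  have h1 : ∀ s : ℂ, IsRegular ℂ (s • (Y - X) + X) ↔ ¬ (p.coeff (rank ℂ L)).IsRoot s := fun s => by
    rw [isRegular_def, ← hp, Polynomial.coeff_map]
    rfl
  simp only [h1, not_not]
  refine Polynomial.finite_setOfPred_isRoot fun e => (h1 1).1 (by simpa using hY) ?_
  rw [e]
  exact Polynomial.eval_zero

theorem engel_le {X : L} (hX : IsRegular ℂ X) : ∀ y ∈ engel ℂ X, engel ℂ X ≤ engel ℂ y := by
  intro y hy
  set Ex : {engel ℂ z | z ∈ engel ℂ X} := ⟨engel ℂ X, X, self_mem_engel _ _, rfl⟩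
  suffices IsBot Ex from @this ⟨engel ℂ y, y, hy, rfl⟩
  apply engel_isBot_of_isMin (Cardinal.natCast_le_aleph0.trans
    (Cardinal.infinite_iff.mp inferInstance)) (engel ℂ X) Ex le_rfl
  rintro ⟨_, y, hy, rfl⟩ hyx
  suffices engel ℂ y = engel ℂ X from this.ge
  refine toSubmodule_injective (Submodule.eq_of_le_of_finrank_le hyx ?_)
  exact ((isRegular_iff_finrank_engel_eq_rank ℂ X).1 hX).le.trans (rank_le_finrank_engel ℂ y)

/-- The Engel subalgebra of `Y` is conjugate into that of `X`. -/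
def Into (L : LieSubalgebra ℂ (Mt r)) (Y X : L) : Prop :=
  ∃ g, ∃ hg : g ∈ GW L.toSubmodule, ∀ y ∈ engel ℂ Y, cjH hg y ∈ engel ℂ X

theorem Into.trans {X Y Z : L} (h : Into L X Y) (h' : Into L Y Z) : Into L X Z := by
  obtain ⟨g, hg, k⟩ := h
  obtain ⟨g', hg', k'⟩ := h'
  refine ⟨_, mul_mem hg' hg, fun y hy => ?_⟩
  convert k' _ (k y hy) using 1
  exact Subtype.ext (by simp [cjH, mul_assoc])

theorem into_reg {X Y : L} (hX : IsRegular ℂ X) (hY : IsRegular ℂ Y) : Into L X Y := by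
  have h1 := (fin_line X hY).countable.isConnected_compl_of_one_lt_rank (by simp)
  have h2 := h1.isPreconnected.induction₂'
    (fun s s' => Into L (s • (Y - X) + X) (s' • (Y - X) + X)) (fun s hs => ?_)
    (fun _ _ _ _ _ _ => Into.trans) (x := 0) (y := 1) (by simpa using hX) (by simpa using hY)
  · simpa using h2
  have h3 : Continuous fun s : ℂ => (s • (Y - X) + X).1 := by
    simp only [AddMemClass.coe_add, SetLike.val_smul]
    fun_prop
  filter_upwards [self_mem_nhdsWithin,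
    nhdsWithin_le_nhds ((h3.tendsto s).eventually (open_conj _))] with s' hs' h4
  obtain ⟨g, hg, H, hH, e⟩ := h4 (s' • (Y - X) + X).2
  have k1 := not_not.1 hs
  have k2 := not_not.1 hs'
  generalize s • (Y - X) + X = A at k1 hH
  generalize s' • (Y - X) + X = B at k2 e
  have k3 : (engel ℂ A).toSubmodule.map (cjH hg) = (engel ℂ B).toSubmodule := by
    refine Submodule.eq_of_le_of_finrank_le ?_ ?_
    · rintro _ ⟨y, hy, rfl⟩
      exact (show cjH hg H = B from e) ▸ cjH_engel hg (engel_le k1 H hH hy)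
    · rw [← LinearEquiv.finrank_eq (Submodule.equivMapOfInjective _
        (Function.LeftInverse.injective (cjH_inv hg)) _)]
      exact ((isRegular_iff_finrank_engel_eq_rank ℂ B).1 k2).le.trans (rank_le_finrank_engel ℂ A)
  refine ⟨⟨g, hg, fun y hy => k3.le ⟨y, hy, rfl⟩⟩, _, inv_mem hg, fun y hy => ?_⟩
  obtain ⟨x, hx, rfl⟩ := k3.ge hy
  rwa [cjH_inv]

theorem exists_reg {X : L} (hX : IsRegular ℂ X) (S : L) : ∃ g, ∃ hg : g ∈ GW L.toSubmodule,
    ∃ H ∈ engel ℂ S, IsRegular ℂ (cjH hg H) := by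
  have h3 : Continuous fun s : ℂ => (s • (X - S) + S).1 := by
    simp only [AddMemClass.coe_add, SetLike.val_smul]
    fun_prop
  obtain ⟨s, h4, hs⟩ := ((fin_line S hX).countable.dense_compl ℂ).inter_nhds_nonempty
    ((h3.tendsto' 0 S.1 (by simp)).eventually (open_conj S))
  obtain ⟨g, hg, H, hH, e⟩ := hs (s • (X - S) + S).2
  exact ⟨g, hg, H, hH, e ▸ not_not.1 h4⟩

theorem exists_cartan (L : LieSubalgebra ℂ (Mt r)) : ∃ H : LieSubalgebra ℂ L,
    H.IsCartanSubalgebra ∧ ∀ S ∈ L, (∀ y ∈ L, adL S (adL S y) = 0 → adL S y = 0) →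
      ∃ B : H, Cj L.toSubmodule S B.1.1 := by
  obtain ⟨X, hX⟩ := exists_isRegular ℂ L
  refine ⟨engel ℂ X, ⟨isNilpotent_of_forall_le_engel _ (engel_le hX), normalizer_engel _ _⟩,
    fun S hS h => ?_⟩
  lift S to L using hS
  obtain ⟨g, hg, H, hH, e⟩ := exists_reg hX S
  obtain ⟨g', hg', k⟩ := into_reg e hX
  obtain ⟨n, hn⟩ := (mem_engel_iff ℂ _ _).1 hH
  have k1 : ∀ (n : ℕ) (H : L), (ad ℂ L S ^ n) H = 0 → ad ℂ L S H = 0 := fun n => by
    induction n with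
    | zero => exact fun H hn => by rw [show H = 0 from hn, map_zero]
    | succ n ih => exact fun H hn => Subtype.ext (h _ H.2 (congrArg Subtype.val (ih _ hn)))
  have k2 : S ∈ engel ℂ H := (mem_engel_iff ℂ _ _).2 ⟨1, by
    rw [pow_one, ad_apply, ← lie_skew, ← ad_apply ℂ, k1 n H hn, neg_zero]⟩
  exact ⟨⟨_, k _ (cjH_engel hg k2)⟩, Cj.trans ⟨g, hg, rfl⟩ ⟨g', hg', rfl⟩⟩

end Pool.Agent.GR.OG
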