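import Pool.Agent.Lib.MP_aa40d3_nt.OG.Exp

/-! The semisimple part lies in the closure of the orbit. -/

open Matrix NormedSpace
open scoped Matrix.Norms.Operator

namespace Pool.Agent.GR.OG

open OP

variable {r : ℕ} {W : Submodule ℂ (Mt r)}

theorem ker_range {V : Type} [AddCommGroup V] [Module ℂ V] [FiniteDimensional ℂ V]
    (T : Module.End ℂ V) (h : ∀ y, T (T y) = 0 → T y = 0) (x : V) : ∃ y, T (x - T y) = 0 := by
  have h1 := Submodule.eq_top_of_disjoint (LinearMap.range T) (LinearMap.ker T)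
    (LinearMap.finrank_range_add_finrank_ker T).ge
    (Submodule.disjoint_def.2 (by rintro _ ⟨y, rfl⟩ k; exact h y k))
  obtain ⟨_, ⟨y, rfl⟩, z, hz, rfl⟩ := Submodule.mem_sup.1 (h1.ge (Submodule.mem_top (x := x)))
  exact ⟨y, by rwa [add_sub_cancel_left]⟩

theorem sq_ker {V : Type} [AddCommGroup V] [Module ℂ V] {T : Module.End ℂ V}
    (h : T.IsSemisimple) (y : V) (hy : T (T y) = 0) : T y = 0 := by
  obtain ⟨q, hq, hc⟩ := Module.End.isSemisimple_iff.1 h (LinearMap.ker T)
    (fun x hx => by simp [LinearMap.mem_ker.1 hx])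
  obtain ⟨a, ha, b, hb, rfl⟩ := Submodule.mem_sup.1 (hc.sup_eq_top.ge (Submodule.mem_top (x := y)))
  refine Submodule.disjoint_def.1 hc.disjoint _ hy ?_
  rw [map_add, LinearMap.mem_ker.1 ha, zero_add]
  exact hq hb

theorem mem_range_ad {L : Type} [LieRing L] [LieAlgebra ℂ L] [Module.Finite ℂ L]
    [LieAlgebra.IsKilling ℂ L] (a n : L) (h : ∀ z, ⁅a, z⁆ = 0 → killingForm ℂ L z n = 0) :
    ∃ y, ⁅a, y⁆ = n := by
  have hn := LieAlgebra.IsKilling.killingForm_nondegenerate ℂ L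
  have hr := (LieModule.traceForm_isSymm ℂ L L).isRefl
  change n ∈ LinearMap.range (LieAlgebra.ad ℂ L a)
  rw [← LinearMap.BilinForm.orthogonal_orthogonal hn hr (LinearMap.range _)]
  intro z hz
  refine h z (hn.2 _ fun y => ?_)
  have h1 : killingForm ℂ L ⁅a, y⁆ z = 0 := hz _ ⟨y, rfl⟩
  rw [← LieModule.traceForm_apply_lie_apply, ← lie_skew, map_neg, LinearMap.neg_apply, h1, neg_zero]

attribute [local instance 100] LieRing.ofAssociativeRing in
theorem exists_ad [NeZero r] (h : LieW W) {A N : Mt r} (hA : A ∈ W) (hN : N ∈ W)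
    (hn : IsNilpotent N) (hc : ∀ z, Commute z A → Commute z N) :
    ∃ Y ∈ W, A * Y - Y * A = N := by
  let e := toLinAlgEquiv' (R := ℂ) (n := Fin r)
  let L : LieSubalgebra ℂ (Module.End ℂ (Fin r → ℂ)) :=
    { W.map e.toLinearMap with
      lie_mem' := by
        rintro _ _ ⟨a, ha, rfl⟩ ⟨b, hb, rfl⟩
        exact ⟨_, h.lie a ha b hb, by simp [LieRing.of_associative_ring_bracket]⟩ }
  have hL : ∀ a ∈ W, e a ∈ L := fun a ha => ⟨a, ha, rfl⟩
  have : LieModule.IsIrreducible ℂ L (Fin r → ℂ) := by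
    refine LieModule.IsIrreducible.mk fun N hN => ?_
    have := (h.irr N.toSubmodule fun a ha v hv => N.lie_mem (x := ⟨e a, hL a ha⟩) hv).resolve_left
      (by simpa using hN)
    simpa using this
  have : LieAlgebra.HasTrivialRadical ℂ L :=
    LieAlgebra.hasTrivialRadical_of_isIrreducible_of_isFaithful ℂ L (Fin r → ℂ) (by
      rintro ⟨_, a, ha, rfl⟩
      exact (Matrix.trace_toLin'_eq a).trans (h.tr a ha))
  obtain ⟨⟨_, y, hy, rfl⟩, hx⟩ := mem_range_ad (L := L) ⟨e A, hL A hA⟩ ⟨e N, hL N hN⟩ (by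
    rintro ⟨_, z, hz, rfl⟩ k
    have k1 : e A * e z - e z * e A = 0 := congrArg Subtype.val k
    rw [← map_mul, ← map_mul, sub_eq_zero] at k1
    have k2 : ⁅(⟨e z, hL z hz⟩ : L), (⟨e N, hL N hN⟩ : L)⁆ = 0 :=
      Subtype.ext (sub_eq_zero.2 ((hc z (e.injective k1).symm).map e))
    have k3 := congrArg (LieAlgebra.ad ℂ L) k2
    rw [LieHom.map_lie, map_zero] at k3
    exact (LinearMap.isNilpotent_trace_of_isNilpotent (Commute.isNilpotent_mul_left
      (sub_eq_zero.1 k3) (LieAlgebra.isNilpotent_ad_of_isNilpotent (hn.map e)))).eq_zero)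
  refine ⟨y, hy, e.injective ?_⟩
  rw [map_sub, map_mul, map_mul]
  exact congrArg Subtype.val hx

attribute [local instance 100] LieRing.ofAssociativeRing in
theorem exists_split (hW : ∀ a ∈ W, ∀ b ∈ W, a * b - b * a ∈ W) {A : Mt r} (hA : A ∈ W) :
    ∃ N S : Mt r, A = S + N ∧ IsNilpotent N ∧ (∀ z, Commute z A → Commute z N) ∧
      (∀ y, adL S (adL S y) = 0 → adL S y = 0) ∧ ∀ z ∈ W, S * z - z * S ∈ W := by
  let e := toLinAlgEquiv' (R := ℂ) (n := Fin r)
  obtain ⟨n, h1, s, h2, h3, h4, h5⟩ :=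
    Module.End.exists_isNilpotent_isSemisimple (f := e A)
  obtain ⟨N, rfl⟩ := e.surjective n
  obtain ⟨S, rfl⟩ := e.surjective s
  have h6 : ∀ X z, LieAlgebra.ad ℂ _ (e X) (e z) = e (adL X z) := fun X z => by
    rw [adL_apply, map_sub, map_mul, map_mul]
    rfl
  have h7 := LieAlgebra.ad_mem_adjoin_of_isSemisimple
    (Algebra.commute_of_mem_adjoin_singleton_of_commute h2
      (Algebra.commute_of_mem_adjoin_self h1).symm) h3 h4
  rw [← h5] at h7
  refine ⟨N, S, e.injective (by rw [h5, map_add, add_comm]),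
    (IsNilpotent.map_iff e.injective).1 h3, fun z hz => e.injective ?_, fun y hy => e.injective ?_,
    fun z hz => ?_⟩
  · rw [map_mul, map_mul]
    exact Algebra.commute_of_mem_adjoin_singleton_of_commute h1 (hz.map e)
  · rw [← h6, map_zero]
    exact sq_ker (LieAlgebra.ad_isSemisimple_of_isSemisimple h4) _ (by rw [h6, h6, hy, map_zero])
  · have h8 : ∀ φ ∈ Algebra.adjoin ℂ {LieAlgebra.ad ℂ _ (e A)}, ∀ z ∈ W, ∃ w ∈ W,
        φ (e z) = e w := fun φ hφ => by
      induction hφ using Algebra.adjoin_induction with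
      | mem x hx => exact fun z hz => ⟨_, hW A hA z hz, by rw [hx, h6, adL_apply]⟩
      | algebraMap c => exact fun z hz => ⟨_, W.smul_mem c hz, by rw [map_smul]; rfl⟩
      | add x y _ _ hx hy =>
        intro z hz
        obtain ⟨a, ha, k1⟩ := hx z hz
        obtain ⟨b, hb, k2⟩ := hy z hz
        exact ⟨_, W.add_mem ha hb, by rw [LinearMap.add_apply, k1, k2, map_add]⟩
      | mul x y _ _ hx hy =>
        intro z hz
        obtain ⟨a, ha, k1⟩ := hy z hz
        obtain ⟨b, hb, k2⟩ := hx a ha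
        exact ⟨_, hb, by rw [Module.End.mul_apply, k1, k2]⟩
    obtain ⟨w, hw, k⟩ := h8 _ h7 z hz
    rw [h6] at k
    rwa [← adL_apply, e.injective k]

theorem exp_nil {N : Mt r} (h : IsNilpotent N) : IsNilpotent (exp N - 1) := by
  obtain ⟨k, hk⟩ := h
  have h1 : HasSum (fun n : ℕ => (n.factorial : ℂ)⁻¹ • N ^ n) _ :=
    hasSum_sum_of_ne_finset_zero (s := Finset.range (k + 1)) fun n hn => by
      rw [pow_eq_zero_of_le (by simpa using (not_lt.1 (mt Finset.mem_range.2 hn)).trans' k.le_succ)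
        hk, smul_zero]
  rw [show exp N = _ from (exp_series_hasSum_exp' (𝕂 := ℂ) N).unique h1, Finset.sum_range_succ',
    pow_zero,
    Nat.factorial_zero, Nat.cast_one, inv_one, one_smul, add_sub_cancel_right]
  refine Commute.isNilpotent_sum (fun i _ => IsNilpotent.smul ?_ _) fun i j _ _ =>
    ((Commute.pow_pow_self N _ _).smul_left _).smul_right _
  exact IsNilpotent.pow_succ i ⟨k, hk⟩

theorem exists_jordan [NeZero r] (hL : LieW W) {A : Mt r} (hA : A ∈ W)
    (h : ∀ c : ℂ, ¬ IsNilpotent (exp A - c • 1)) : ∃ S ∈ W, ∃ N : Mt r,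
      (∀ y ∈ W, adL S (adL S y) = 0 → adL S y = 0) ∧ ¬ Scl (exp S) ∧
        ∀ c : ℂ, c ≠ 0 → Cj W A (S + c • N) := by
  obtain ⟨N, S, rfl, h1, h2, h3, h4⟩ := exists_split hL.lie hA
  have hc : Commute S N := by
    have := (h2 _ (Commute.refl _)).eq
    rwa [add_mul, mul_add, add_left_inj] at this
  have hS : S ∈ W := by
    obtain ⟨X, k1, k2⟩ := hL.inner h4
    obtain ⟨c, hc⟩ := hL.cen (S - X) fun a ha => by
      rw [mul_sub, sub_mul, sub_eq_sub_iff_sub_eq_sub, ← neg_sub, ← k2 a ha, neg_sub]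
    have k3 := hL.tr _ hA
    have k4 := congrArg Matrix.trace hc
    rw [trace_add, (Matrix.isNilpotent_trace_of_isNilpotent h1).eq_zero, add_zero] at k3
    rw [trace_sub, k3, hL.tr X k1, sub_zero, trace_smul, trace_one, Fintype.card_fin, smul_eq_mul,
      zero_eq_mul, or_iff_left (Nat.cast_ne_zero.2 (NeZero.ne r))] at k4
    rw [k4, zero_smul, sub_eq_zero] at hc
    rwa [hc]
  have hN : N ∈ W := by simpa using W.sub_mem hA hS
  obtain ⟨Y, hY, k1⟩ := exists_ad hL hA hN h1 h2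
  obtain ⟨Z, k2⟩ := ker_range ((adL S).restrict h4)
    (fun y hy => Subtype.ext (h3 y (congrArg Subtype.val hy))) ⟨Y, hY⟩
  have k3 : S * (Y - adL S Z) - (Y - adL S Z) * S = 0 := congrArg Subtype.val k2
  have k4 : Y - adL S Z ∈ W := W.sub_mem hY (h4 _ Z.2)
  obtain ⟨H, rfl⟩ : ∃ H, Y = H + adL S Z := ⟨_, (sub_add_cancel _ _).symm⟩
  rw [add_sub_cancel_right] at k3 k4
  have k5 : adL S ((S + N) * Z - Z * (S + N)) = N - (N * H - H * N) := by
    have e1 := sub_eq_zero.1 k3
    have e2 : S * (N * Z) = N * (S * Z) := by rw [← mul_assoc, hc.eq, mul_assoc]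
    have e3 : Z * (N * S) = Z * (S * N) := by rw [hc.eq]
    nth_rw 3 [← k1]
    simp only [adL_apply, mul_add, add_mul, mul_sub, sub_mul, mul_assoc, e1, e2, e3]
    abel
  have k6 : N * H - H * N = N := by
    refine (sub_eq_zero.1 ?_).symm
    rw [← k5]
    refine h3 _ ?_
    have e1 : Commute S H := sub_eq_zero.1 k3
    rw [k5, adL_apply, sub_eq_zero]
    exact hc.sub_right ((hc.mul_right e1).sub_right (e1.mul_right hc))
  refine ⟨S, hS, N, fun y _ => h3 y, ?_, fun c hc0 => ?_⟩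
  · rintro ⟨c, e⟩
    refine h c ?_
    rw [Matrix.exp_add_of_commute _ _ hc, e, smul_mul_assoc, one_mul, ← smul_sub]
    exact (exp_nil h1).smul c
  · set B := (-Complex.log c) • H
    have e1 := exp_eig (B := B) (e := S) (c := 0) (by
      rw [smul_mul_assoc, mul_smul_comm, sub_eq_zero.1 k3, sub_self, zero_smul])
    have e2 := exp_eig (B := B) (e := N) (c := Complex.log c) (by
      rw [smul_mul_assoc, mul_smul_comm, ← smul_sub, neg_smul, ← smul_neg, neg_sub, k6])
    refine ⟨eU B, eU_mem (W.smul_mem _ k4), ?_⟩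
    rw [Units.eq_mul_inv_iff_mul_eq]
    change _ * exp B = exp B * _
    rw [mul_add, e1, e2, Complex.exp_zero, Complex.exp_log hc0, one_smul, add_mul, smul_mul_assoc]

end Pool.Agent.GR.OG
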