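import Pool.Agent.Lib.MP_aa40d3_nt.OG.Exp

/-! A short root detects every non-central exponential up to the Weyl group. -/

open Matrix NormedSpace
open scoped Matrix.Norms.Operator

namespace Pool.Agent.GR.OG

open OP LieAlgebra LieAlgebra.IsKilling LieModule

attribute [local instance 100] LieRing.ofAssociativeRing

variable {r : ℕ}

/-- The orbit of a root under the reflections. -/
def Orb {ι M N : Type} [AddCommGroup M] [Module ℂ M] [AddCommGroup N] [Module ℂ N]
    (P : RootPairing ι ℂ M N) (b : ι) : Set ι :=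
  {j | Relation.ReflTransGen (fun i j => ∃ k, j = P.reflectionPerm k i) b j}

theorem short_root {ι M N : Type} [AddCommGroup M] [Module ℂ M] [AddCommGroup N] [Module ℂ N]
    (P : RootPairing ι ℂ M N) [Finite ι] [Nonempty ι] [P.IsCrystallographic] [P.IsReduced]
    [P.IsIrreducible] : ∃ b, ∀ a, P.root a ∈ AddSubgroup.closure (P.root '' Orb P b) := by
  let L := fun b => AddSubgroup.closure (P.root '' Orb P b)
  have hO : ∀ b k j, j ∈ Orb P b → P.reflectionPerm k j ∈ Orb P b := fun b k j h =>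
    Relation.ReflTransGen.tail h ⟨k, rfl⟩
  have hm : ∀ b j, j ∈ Orb P b → P.root j ∈ L b := fun b j h =>
    AddSubgroup.subset_closure ⟨j, h, rfl⟩
  have hle : ∀ a b, P.root a ∈ L b → L a ≤ L b := fun a b h => (AddSubgroup.closure_le _).2 (by
    rintro _ ⟨j, hj, rfl⟩
    induction hj with
    | refl => exact h
    | tail _ e ih =>
      obtain ⟨k, rfl⟩ := e
      rw [P.root_reflectionPerm]
      exact (AddSubgroup.closure_le ((L b).comap (P.reflection k).toAddMonoidHom)).2 (by
        rintro _ ⟨j, hj, rfl⟩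
        have := hm b _ (hO b k j hj)
        rwa [P.root_reflectionPerm] at this) ih)
  have h1 : ∀ a j b, j ∈ Orb P b → P.pairingIn ℤ j a = 1 ∨ P.pairingIn ℤ j a = -1 →
      P.root a ∈ L b := fun a j b hj e => by
    have k := (L b).sub_mem (hm b j hj) (hm b _ (hO b a j hj))
    rw [P.root_reflectionPerm, P.reflection_apply_root, sub_sub_cancel,
      ← P.algebraMap_pairingIn ℤ] at k
    rcases e with e | e <;> simpa [e] using k
  have tot : ∀ a b, L a ≤ L b ∨ L b ≤ L a := fun a b => by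
    obtain ⟨j, hj, h0⟩ : ∃ j ∈ Orb P b, P.pairing j a ≠ 0 := by
      by_contra hn
      push Not at hn
      have e := RootPairing.IsIrreducible.eq_top_of_invtSubmodule_reflection (P := P)
        (Submodule.span ℂ (P.root '' Orb P b)) (fun k => Submodule.span_le.2 (by
          rintro _ ⟨j, hj, rfl⟩
          exact Submodule.subset_span ⟨_, hO b k j hj, P.root_reflectionPerm k j⟩))
        fun e => P.ne_zero b (e.le (Submodule.subset_span ⟨b, .refl, rfl⟩))
      have k : P.coroot' a (P.root a) = 0 :=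
        (Submodule.span_le (p := LinearMap.ker (P.coroot' a))).2 (by
          rintro _ ⟨j, hj, rfl⟩
          exact hn j hj) (e.ge trivial)
      simp at k
    have hb : b ∈ Orb P j := by
      clear h0
      induction hj with
      | refl => exact .refl
      | tail _ e ih =>
        obtain ⟨k, rfl⟩ := e
        exact .head ⟨k, (P.reflectionPerm_self k _).symm⟩ ih
    by_cases e1 : P.root j = P.root a
    · exact Or.inl (hle a b (e1 ▸ hm b j hj))
    by_cases e2 : P.root j = -P.root a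
    · exact Or.inl (hle a b (neg_mem_iff.1 (e2 ▸ hm b j hj)))
    have k := P.pairingIn_pairingIn_mem_set_of_isCrystal_of_isRed' j a e1 e2
    rw [← P.algebraMap_pairingIn ℤ] at h0
    have k0 : P.pairingIn ℤ j a ≠ 0 := fun e => h0 (by rw [e, map_zero])
    have k1 : (P.pairingIn ℤ j a = 1 ∨ P.pairingIn ℤ j a = -1) ∨
        P.pairingIn ℤ a j = 1 ∨ P.pairingIn ℤ a j = -1 := by
      simp only [Set.mem_insert_iff, Set.mem_singleton_iff, Prod.mk.injEq] at k
      omega
    exact k1.imp (fun e => hle a b (h1 a j b hj e))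
      fun e => (hle b j (hm j b hb)).trans (hle j a (h1 j a a .refl e))
  obtain ⟨_, ⟨⟨b, rfl⟩, hb⟩⟩ := (Set.finite_range L).exists_maximal (Set.range_nonempty L)
  exact ⟨b, fun a => ((tot a b).elim id fun e => hb ⟨a, rfl⟩ e) (hm a a .refl)⟩

theorem cj_refl {W : Submodule ℂ (Mt r)} {e f h B : Mt r} {a : ℂ} (he : e ∈ W) (hf : f ∈ W)
    (h1 : e * f - f * e = h) (h2 : h * e - e * h = (2 : ℂ) • e)
    (h3 : h * f - f * h = (-2 : ℂ) • f) (h4 : B * e - e * B = a • e)
    (h5 : B * f - f * B = (-a) • f) : Cj W B (B - a • h) := by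
  have k0 : ∀ x : Mt r, adL x x = 0 := fun x => sub_self _
  have k1 : adL e B = (-a) • e := by rw [adL_apply, ← neg_sub, h4, neg_smul]
  have k2 : adL e h = (-2 : ℂ) • e := by rw [adL_apply, ← neg_sub, h2, neg_smul]
  have k3 : adL f B = a • f := by rw [adL_apply, ← neg_sub, h5, neg_smul, neg_neg]
  have k4 : adL f h = (2 : ℂ) • f := by rw [adL_apply, ← neg_sub, h3, neg_smul, neg_neg]
  have k5 : adL f e = -h := by rw [adL_apply, ← neg_sub, h1]
  have c1 := cj_two (Z := B) (W.neg_mem he) (by simp [k0, k1])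
  have c2 := cj_two (Z := B + a • e) hf (by simp [k0, k3, k4, k5])
  have c3 := cj_two (Z := B - a • h) he (by simp [k0, k1, k2])
  simp only [map_neg, LinearMap.neg_apply, map_add, map_sub, map_smul, k0, k1, k2, k3, k4, k5,
    neg_smul, neg_neg, smul_zero, neg_zero, add_zero, sub_zero] at c1 c2 c3
  refine c1.trans (Cj.trans ?_ c3.symm)
  rwa [show B - a • h + (-(a • e) - a • -((2 : ℂ) • e)) =
    B + a • e + (a • f + a • -h) + (2 : ℂ)⁻¹ • (0 + a • -((2 : ℂ) • f)) by module]

theorem exists_short (L : LieSubalgebra ℂ (Mt r)) [LieAlgebra.IsKilling ℂ L]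
    [LieAlgebra.IsSimple ℂ L] (H : LieSubalgebra ℂ L) [H.IsCartanSubalgebra] :
    ∃ e ∈ L, ∃ f ∈ L, ∃ h : Mt r, e ≠ 0 ∧ e * f - f * e = h ∧ h * e - e * h = (2 : ℂ) • e ∧
      h * f - f * h = (-2 : ℂ) • f ∧ ∀ B : H, (∃ z ∈ L, exp B.1.1 * z ≠ z * exp B.1.1) →
        ∃ (B' : Mt r) (a : ℂ), Cj L.toSubmodule B.1.1 B' ∧ Complex.exp a ≠ 1 ∧
          B' * e - e * B' = a • e ∧ B' * f - f * B' = (-a) • f := by
  have hr : ∀ (χ : H → ℂ) (z : L), z ∈ rootSpace H χ → ∀ B : H,
      B.1.1 * z.1 - z.1 * B.1.1 = χ B • z.1 := fun χ z hz B =>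
    congrArg Subtype.val (lie_eq_smul_of_mem_rootSpace hz B)
  have ht : ∀ k : H.root, ∃ e f : L, e.1 ≠ 0 ∧ e.1 * f.1 - f.1 * e.1 = (coroot k.1).1.1 ∧
      (∀ B : H, B.1.1 * e.1 - e.1 * B.1.1 = k.1 B • e.1) ∧
        ∀ B : H, B.1.1 * f.1 - f.1 * B.1.1 = (-k.1 B) • f.1 := fun k => by
    obtain ⟨h, e, f, t, he, hf⟩ := exists_isSl2Triple_of_weight_isNonZero (H.isNonZero_coe_root k)
    exact ⟨e, f, fun h0 => t.e_ne_zero (Subtype.ext h0), congrArg Subtype.val
      (t.lie_e_f.trans (t.h_eq_coroot (H.isNonZero_coe_root k) he hf)), hr _ e he, hr _ f hf⟩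
  have h2 : ∀ k : H.root, k.1 (coroot k.1) = 2 := fun k =>
    root_apply_coroot (H.isNonZero_coe_root k)
  have : Nonempty H.root := by
    by_contra hn
    have := RootPairing.IsIrreducible.nontrivial (rootSystem H)
    have e := RootPairing.IsRootSystem.span_root_eq_top (P := rootSystem H)
    rw [not_nonempty_iff] at hn
    rw [Set.range_eq_empty, Submodule.span_empty] at e
    exact bot_ne_top e
  obtain ⟨b, hb⟩ := short_root (rootSystem H)
  obtain ⟨e, f, k0, k1, k2, k3⟩ := ht b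
  refine ⟨e, e.2, f, f.2, _, k0, k1, by rw [k2, h2], by rw [k3, h2], fun B ⟨z, hz, hB⟩ => ?_⟩
  by_contra hn
  push Not at hn
  have k4 : ∀ j ∈ Orb (rootSystem H) b, ∀ B' : H, Cj L.toSubmodule B.1.1 B'.1.1 →
      Complex.exp (j.1 B') = 1 := fun j hj => by
    induction hj with
    | refl =>
      intro B' hc
      by_contra h0
      exact hn _ _ hc h0 (k2 B') (k3 B')
    | @tail j _ _ e ih =>
      obtain ⟨k, rfl⟩ := e
      intro B' hc
      obtain ⟨e', f', -, m1, m2, m3⟩ := ht k
      have m4 := ih (B' - k.1 B' • coroot k.1) (hc.trans (cj_refl e'.2 f'.2 m1 (by rw [m2, h2])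
        (by rw [m3, h2]) (m2 B') (m3 B')))
      have m5 := LinearMap.congr_fun ((rootSystem H).root_reflectionPerm k j) B'
      rw [RootPairing.reflection_apply_root] at m5
      rw [← m4]
      refine congrArg _ (m5.trans ?_)
      simp [mul_comm]
  have k5 : ∀ a : H.root, Complex.exp (a.1 B) = 1 := fun a =>
    AddSubgroup.closure_induction (p := fun (φ : Module.Dual ℂ H) _ => Complex.exp (φ B) = 1)
      (by rintro _ ⟨j, hj, rfl⟩; exact k4 j hj B (Cj.refl _)) (by simp)
      (fun x y _ _ hx hy => by rw [LinearMap.add_apply, Complex.exp_add, hx, hy, one_mul])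
      (fun x _ hx => by rw [LinearMap.neg_apply, Complex.exp_neg, hx, inv_one]) (hb a)
  have k6 : (⟨z, hz⟩ : L) ∈ ⨆ χ : Weight ℂ H L, genWeightSpace L χ :=
    (iSup_genWeightSpace_eq_top' ℂ H L).ge trivial
  refine hB (LieSubmodule.iSup_induction _ (motive := fun z : L => exp B.1.1 * z.1 = z.1 * exp B.1.1)
    k6 (fun χ z hz => ?_) (by simp) fun x y hx hy => ?_)
  · rw [exp_eig (hr χ z hz B)]
    by_cases h0 : χ.IsNonZero
    · rw [k5 ⟨χ, by simpa [LieSubalgebra.root] using h0⟩, one_smul]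
    · rw [(not_not.1 h0 : χ.IsZero).eq, Pi.zero_apply, Complex.exp_zero, one_smul]
  · rw [AddMemClass.coe_add, mul_add, add_mul, hx, hy]

end Pool.Agent.GR.OG
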