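import Pool.Agent.Lib.MP_aa40d3_nt.OG.Exp

/-! The block of the top power of the nilpotent member of an `sl₂`-triple. -/

open Matrix NormedSpace
open scoped Matrix.Norms.Operator

namespace Pool.Agent.GR.OG

open OP

variable {r : ℕ}

theorem exists_fact {T : Mt r} (hT : T ≠ 0) : ∃ (s : ℕ) (U : Matrix (Fin r) (Fin (s + 1)) ℂ)
    (F : Matrix (Fin (s + 1)) (Fin r) ℂ), T = U * F ∧ (∀ v, U *ᵥ v = 0 → v = 0) ∧
      ∀ v, ∃ w, F *ᵥ w = v := by
  obtain ⟨s, hs⟩ := Nat.exists_eq_succ_of_ne_zero (n := Module.finrank ℂ (toLin' T).range)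
    fun e => hT ((LinearEquiv.map_eq_zero_iff _).1
      (LinearMap.range_eq_bot.1 (Submodule.finrank_eq_zero.1 e)))
  let b := (Module.finBasisOfFinrankEq ℂ _ hs).equivFun
  refine ⟨s, LinearMap.toMatrix' ((toLin' T).range.subtype ∘ₗ b.symm.toLinearMap),
    LinearMap.toMatrix' (b.toLinearMap ∘ₗ (toLin' T).rangeRestrict), ?_, fun v hv => ?_,
    fun v => ?_⟩
  · rw [← LinearMap.toMatrix'_comp]
    exact (LinearMap.toMatrix'_toLin' T).symm.trans
      (congrArg _ (LinearMap.ext fun v => by simp))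
  · rw [← toLin'_apply, toLin'_toMatrix'] at hv
    simpa using hv
  · obtain ⟨w, hw⟩ := (toLin' T).surjective_rangeRestrict (b.symm v)
    exact ⟨w, by rw [← toLin'_apply, toLin'_toMatrix', LinearMap.comp_apply, hw]; simp⟩

theorem wt_pow {h e : Mt r} {c : ℂ} (h2 : h * e - e * h = c • e) (k : ℕ) :
    h * e ^ k = e ^ k * h + (k * c) • e ^ k := by
  induction k with
  | zero => simp
  | succ k ih =>
    rw [pow_succ, ← mul_assoc, ih, add_mul, mul_assoc, sub_eq_iff_eq_add.1 h2, mul_add,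
      mul_smul_comm, smul_mul_assoc, mul_assoc]
    push_cast
    module

theorem sl2_top {e f h : Mt r} (h1 : e * f - f * e = h) (h2 : h * e - e * h = (2 : ℂ) • e)
    (h3 : h * f - f * h = (-2 : ℂ) • f) {D : ℕ} (hD : e ^ (D + 1) = 0) {c : ℂ} (hc : c ≠ 0) :
    ∃ κ : ℂ, κ ≠ 0 ∧ e ^ D * exp (c • f) * e ^ D = κ • e ^ D := by
  have k1 : ∀ k : ℕ, e ^ (k + 1) * f = f * e ^ (k + 1) +
      ((k : ℂ) + 1) • (e ^ k * h + (k : ℂ) • e ^ k) := fun k => by
    induction k with
    | zero => simp [← h1]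
    | succ k ih =>
      rw [pow_succ' e (k + 1), mul_assoc, ih, mul_add, ← mul_assoc, sub_eq_iff_eq_add.1 h1, add_mul,
        wt_pow h2, mul_smul_comm, mul_add, mul_smul_comm, ← mul_assoc, ← pow_succ', mul_assoc]
      push_cast
      module
  have k2 : e ^ D * h = (-D : ℂ) • e ^ D := by
    have := k1 D
    rw [hD, zero_mul, mul_zero, zero_add, eq_comm, smul_eq_zero,
      or_iff_right (Nat.cast_add_one_ne_zero D), add_eq_zero_iff_eq_neg] at this
    rw [this, neg_smul]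
  have k3 : ∀ i : ℕ, h * (f ^ i * e ^ D) = ((D : ℂ) - 2 * i) • (f ^ i * e ^ D) := fun i => by
    rw [← mul_assoc, wt_pow h3, add_mul, mul_assoc, wt_pow h2, k2, mul_add, mul_smul_comm,
      mul_smul_comm, smul_mul_assoc]
    module
  have k4 : ∀ j ≤ D, ∃ κ : ℂ, κ ≠ 0 ∧ e ^ j * (f ^ j * e ^ D) = κ • e ^ D := fun j hj => by
    induction j with
    | zero => exact ⟨1, one_ne_zero, by simp⟩
    | succ j ih =>
      obtain ⟨κ, a1, a2⟩ := ih (by omega)
      refine ⟨(j + 1) * (D - j) * κ, mul_ne_zero (mul_ne_zero (Nat.cast_add_one_ne_zero j)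
        (sub_ne_zero.2 (Nat.cast_injective.ne (by omega)))) a1, ?_⟩
      rw [pow_succ' f, mul_assoc, ← mul_assoc, k1, add_mul, smul_mul_assoc, add_mul, mul_assoc,
        mul_assoc, k3, smul_mul_assoc, mul_smul_comm, a2, pow_succ', mul_assoc, a2, mul_smul_comm,
        ← pow_succ', hD]
      simp only [smul_zero, mul_zero]
      module
  obtain ⟨κ, a1, a2⟩ := k4 D le_rfl
  refine ⟨(D.factorial : ℂ)⁻¹ * c ^ D * κ, mul_ne_zero (mul_ne_zero (inv_ne_zero
    (Nat.cast_ne_zero.2 D.factorial_ne_zero)) (pow_ne_zero _ hc)) a1, ?_⟩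
  have k5 := ((exp_series_hasSum_exp' (𝕂 := ℂ) (c • f)).mul_left (e ^ D)).mul_right (e ^ D)
  refine (k5.unique (hasSum_single D fun i hi => ?_)).trans (by
    rw [smul_pow, smul_smul, mul_smul_comm, smul_mul_assoc, mul_assoc, a2, smul_smul])
  have k6 := congrArg (e ^ D * ·) (k3 i)
  simp only [← mul_assoc, k2, smul_mul_assoc, mul_smul_comm] at k6
  rw [← sub_eq_zero, ← sub_smul, smul_eq_zero, or_iff_right] at k6
  · rw [smul_pow, smul_smul, mul_smul_comm, smul_mul_assoc, k6, smul_zero]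
  · exact fun e => hi (Nat.cast_injective (R := ℂ) (by linear_combination (1 / 2 : ℂ) * e))

theorem sl2_block [NeZero r] {e f h : Mt r} (he : e ≠ 0) (h1 : e * f - f * e = h)
    (h2 : h * e - e * h = (2 : ℂ) • e) (h3 : h * f - f * h = (-2 : ℂ) • f) :
    ∃ (d s : ℕ) (U : Matrix (Fin r) (Fin (s + 1)) ℂ) (F : Matrix (Fin (s + 1)) (Fin r) ℂ),
      e ^ (d + 2) = 0 ∧ e ^ (d + 1) = U * F ∧ ∀ (B : Mt r) (a : ℂ), Complex.exp a ≠ 1 →
        B * e - e * B = a • e → B * f - f * B = (-a) • f →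
          (F * (exp (-f) * exp B * exp f) * U).det ≠ 0 := by
  classical
  have hn : ∃ k, e ^ (k + 2) = 0 := by
    obtain ⟨k, hk⟩ := nil_of_trace (z := e) fun k hk _ => by
      have := congrArg trace (wt_pow h2 k)
      rw [trace_add, trace_mul_comm, left_eq_add, trace_smul, smul_eq_zero] at this
      exact this.resolve_left (mul_ne_zero (Nat.cast_ne_zero.2 hk.ne') two_ne_zero)
    exact ⟨k, by rw [pow_add, hk, zero_mul]⟩
  have hT : e ^ (Nat.find hn + 1) ≠ 0 := by
    rcases hk : Nat.find hn with _ | k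
    · simpa using he
    · exact Nat.find_min hn (hk ▸ k.lt_succ_self)
  obtain ⟨s, U, F, k1, k2, k3⟩ := exists_fact hT
  refine ⟨_, s, U, F, Nat.find_spec hn, k1, fun B a ha b1 b2 h0 => ?_⟩
  obtain ⟨κ, c1, c2⟩ := sl2_top h1 h2 h3 (Nat.find_spec hn) (c := Complex.exp (-a) - 1)
    (sub_ne_zero.2 fun e => ha (by rwa [Complex.exp_neg, inv_eq_one] at e))
  have e1 : exp (-f) * exp B * exp f = exp ((Complex.exp (-a) - 1) • f) * exp B := by
    have := Matrix.exp_units_conj (eU B) f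
    rw [show (eU B).val = exp B from rfl, exp_eig b2, smul_mul_assoc, mul_assoc,
      show exp B * ((eU B)⁻¹).val = 1 from (eU B).mul_inv, mul_one] at this
    rw [sub_smul, one_smul, sub_eq_neg_add, Matrix.exp_add_of_commute _ _
      ((Commute.refl f).neg_left.smul_right _), this, mul_assoc, mul_assoc, mul_assoc,
      show ((eU B)⁻¹).val * exp B = 1 from (eU B).inv_mul, mul_one]
  have e2 := exp_eig (sub_eq_iff_eq_add'.2 (wt_pow b1 (Nat.find hn + 1)))
  rw [k1] at c2 e2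
  obtain ⟨v, hv, e3⟩ := Matrix.exists_mulVec_eq_zero_iff.2 h0
  obtain ⟨w, rfl⟩ := k3 v
  have e4 : U * (F * (exp ((Complex.exp (-a) - 1) • f) * exp B) * U) * F =
      κ • (exp B * (U * F)) := by
    calc _ = U * F * exp ((Complex.exp (-a) - 1) • f) * (exp B * (U * F)) := by
          simp only [Matrix.mul_assoc]
      _ = _ := by rw [e2, mul_smul_comm, ← mul_assoc, c2, smul_mul_assoc, smul_comm]
  have e5 := congrArg (· *ᵥ w) e4
  simp only [← e1, smul_mulVec] at e5
  rw [← mulVec_mulVec, ← mulVec_mulVec, e3, mulVec_zero] at e5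
  refine hv (k2 _ ?_)
  have e6 := congrArg (exp (-B) *ᵥ ·) ((smul_eq_zero.1 e5.symm).resolve_left c1)
  simp only [mulVec_mulVec, mulVec_zero, ← mul_assoc] at e6
  rwa [show exp (-B) * exp B = 1 from (eU B).inv_mul, one_mul, ← mulVec_mulVec] at e6

end Pool.Agent.GR.OG
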