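import Pool.Agent.Lib.MP_aa40d3_nt.OG.Cart
import Pool.Agent.Lib.MP_aa40d3_nt.OG.Root
import Pool.Agent.Lib.MP_aa40d3_nt.OG.Sl2
import Pool.Agent.Lib.MP_aa40d3_nt.OG.Jor

/-! One nilpotent member in opposite position to finitely many exponentials. -/

open Matrix NormedSpace Filter Topology
open scoped Matrix.Norms.Operator

namespace Pool.Agent.GR.OG

open OP

attribute [local instance 100] LieRing.ofAssociativeRing

variable {r : ℕ} {W : Submodule ℂ (Mt r)}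

theorem exp_add_smul (A : Mt r) (c : ℂ) : exp (A + c • 1) = Complex.exp c • exp A := by
  have h := (exp_series_hasSum_exp' (𝕂 := ℂ) (c • (1 : Mt r))).unique
    (((exp_series_hasSum_exp' (𝕂 := ℂ) c).smul_const (1 : Mt r)).congr_fun fun n => by
      rw [smul_pow, one_pow, smul_assoc])
  rw [Matrix.exp_add_of_commute _ _ ((Commute.one_right A).smul_right c), Complex.exp_eq_exp_ℂ]
  exact (congrArg _ h).trans (by rw [mul_smul_comm, mul_one])

theorem exists_block [NeZero r] (hL : LieW W)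
    (hs : ∀ I ≤ W, (∀ a ∈ W, ∀ z ∈ I, a * z - z * a ∈ I) → I = ⊥ ∨ I = W)
    (hn : ∃ a ∈ W, ¬ Scl a) : ∃ e ∈ W, ∃ (d s : ℕ) (U : Matrix (Fin r) (Fin (s + 1)) ℂ)
      (F : Matrix (Fin (s + 1)) (Fin r) ℂ), e ^ (d + 2) = 0 ∧ e ^ (d + 1) = U * F ∧
        ∀ A ∈ W, (∀ c : ℂ, ¬ IsNilpotent (exp A - c • 1)) →
          ∃ g ∈ GW W, (F * (g.val * exp A * (g⁻¹).val) * U).det ≠ 0 := by
  let L : LieSubalgebra ℂ (Mt r) := { W with lie_mem' := fun ha hb => hL.lie _ ha _ hb }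
  have : LieAlgebra.IsSimple ℂ L := by
    refine ⟨fun I => ?_, fun h => ?_⟩
    · refine (hs (I.toSubmodule.map W.subtype) (Submodule.map_subtype_le _ _) ?_).imp
        (fun e => eq_bot_iff.2 fun x hx => Subtype.ext (e.le ⟨x, hx, rfl⟩))
        fun e => eq_top_iff.2 fun x _ => ?_
      · rintro a ha _ ⟨z, hz, rfl⟩
        exact ⟨_, I.lie_mem (x := ⟨a, ha⟩) hz, rfl⟩
      · obtain ⟨y, hy, e'⟩ := e.ge x.2
        exact (Subtype.ext e' : y = x) ▸ hy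
    · obtain ⟨a, ha, k⟩ := hn
      exact k (hL.cen a fun b hb => sub_eq_zero.1
        (congrArg Subtype.val (trivial_lie_zero L L ⟨b, hb⟩ ⟨a, ha⟩)))
  obtain ⟨H, _, hH⟩ := exists_cartan L
  obtain ⟨e, he, f, hf, h, h0, h1, h2, h3, h4⟩ := exists_short L H
  obtain ⟨d, s, U, F, k1, k2, k3⟩ := sl2_block h0 h1 h2 h3
  refine ⟨e, he, d, s, U, F, k1, k2, fun A hA h => ?_⟩
  obtain ⟨S, hS, N, a1, a2, a3⟩ := exists_jordan hL hA h
  obtain ⟨B, hB⟩ := hH S hS a1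
  have a4 := hB.exp 1
  rw [one_smul, one_smul] at a4
  obtain ⟨B', a, b1, b2, b3, b4⟩ := h4 B (by
    by_contra hc
    push Not at hc
    obtain ⟨c, e⟩ := hL.cen _ fun z hz => (hc z hz).symm
    obtain ⟨g, -, e'⟩ := a4.symm
    exact a2 ⟨c, by rw [e', e, mul_smul_comm, smul_mul_assoc, mul_one, g.mul_inv]⟩)
  have a5 := b1.exp 1
  rw [one_smul, one_smul] at a5
  obtain ⟨g, hg, e1⟩ := (a4.trans a5).trans ⟨(eU f)⁻¹, inv_mem (eU_mem hf), rfl⟩
  have a6 : (F * (g.val * exp (S + (0 : ℂ) • N) * (g⁻¹).val) * U).det ≠ 0 := by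
    rw [zero_smul, add_zero, ← e1]
    exact k3 B' a b2 b3 b4
  have a7 : Continuous fun c : ℂ => (F * (g.val * exp (S + c • N) * (g⁻¹).val) * U).det := by
    have : Continuous fun c : ℂ => exp (S + c • N) := exp_continuous.comp (by fun_prop)
    exact ((continuous_const.matrix_mul ((continuous_const.matrix_mul this).matrix_mul
      continuous_const)).matrix_mul continuous_const).matrix_det
  obtain ⟨c, c1, c2⟩ := (dense_compl_singleton (0 : ℂ)).inter_nhds_nonempty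
    (a7.continuousAt.eventually_ne a6)
  have a8 := (a3 c c1).exp 1
  rw [one_smul, one_smul] at a8
  obtain ⟨g', hg', e2⟩ := a8.trans ⟨g, hg, rfl⟩
  exact ⟨g', hg', e2 ▸ c2⟩

theorem common_opp [NeZero r] (hL : LieW W)
    (hs : ∀ I ≤ W, (∀ a ∈ W, ∀ z ∈ I, a * z - z * a ∈ I) → I = ⊥ ∨ I = W) {ι : Type}
    (S : Finset ι) (hS : S.Nonempty) (B : ι → Mt r)
    (hB : ∀ j ∈ S, (∃ c : ℂ, B j - c • 1 ∈ W) ∧ ∀ c : ℂ, ¬ IsNilpotent (exp (B j) - c • 1)) :
    ∃ E ∈ W, ∃ (d s : ℕ) (U : Matrix (Fin r) (Fin (s + 1)) ℂ)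
      (F : Matrix (Fin (s + 1)) (Fin r) ℂ), E ^ (d + 2) = 0 ∧ E ^ (d + 1) = U * F ∧
        ∀ j ∈ S, (F * exp (B j) * U).det ≠ 0 := by
  have h1 : ∀ j ∈ S, ∃ A ∈ W, ∃ c : ℂ, c ≠ 0 ∧ exp (B j) = c • exp A ∧
      ∀ c : ℂ, ¬ IsNilpotent (exp A - c • 1) := fun j hj => by
    obtain ⟨⟨c, hc⟩, h⟩ := hB j hj
    have e := exp_add_smul (B j - c • 1) c
    rw [sub_add_cancel] at e
    refine ⟨_, hc, _, Complex.exp_ne_zero c, e, fun a ha => h (Complex.exp c * a) ?_⟩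
    rw [e, mul_smul, ← smul_sub]
    exact ha.smul _
  obtain ⟨e, he, d, s, U, F, k1, k2, k3⟩ := exists_block hL hs (by
    obtain ⟨j, hj⟩ := hS
    obtain ⟨A, hA, -, -, -, h⟩ := h1 j hj
    refine ⟨A, hA, fun ⟨c, e⟩ => h (Complex.exp c) ?_⟩
    rw [e, ← zero_add (c • 1), exp_add_smul, exp_zero, sub_self]
    exact IsNilpotent.zero)
  obtain ⟨g, hg, k4⟩ := common (W := W) S (fun j p => (F * (p.1 * exp (B j) * p.2) * U).det)
    (fun j => by
      simp only [det_apply', Matrix.mul_apply]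
      fun_prop)
    fun j hj => by
      obtain ⟨A, hA, c, c1, c2, h⟩ := h1 j hj
      obtain ⟨g, hg, k⟩ := k3 A hA h
      refine ⟨g, hg, ?_⟩
      rw [c2, mul_smul_comm, smul_mul_assoc, Matrix.mul_smul, Matrix.smul_mul, det_smul]
      exact mul_ne_zero (pow_ne_zero _ c1) k
  refine ⟨_, GW_conj hL.lie (inv_mem hg) he, d, s, (g⁻¹).val * U, F * g.val, ?_, ?_,
    fun j hj => ?_⟩
  · rw [Units.conj_pow, k1, mul_zero, zero_mul]
  · rw [Units.conj_pow, k2, inv_inv]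
    simp only [Matrix.mul_assoc]
  · simpa only [Matrix.mul_assoc] using k4 j hj

end Pool.Agent.GR.OG
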