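import Pool.Agent.Lib.MP_aa40d3_nt.OL.Lie

/-! The group generated by the exponentials of a Lie algebra of matrices. -/

open Matrix NormedSpace
open scoped Matrix.Norms.Operator

namespace Pool.Agent.GR.OG

open OP

variable {r : ℕ} {W : Submodule ℂ (Mt r)}

/-- The exponential as a unit. -/
noncomputable def eU (X : Mt r) : (Mt r)ˣ :=
  ⟨exp X, exp (-X), by
    rw [← Matrix.exp_add_of_commute _ _ (Commute.refl X).neg_right, add_neg_cancel, exp_zero], by
    rw [← Matrix.exp_add_of_commute _ _ (Commute.refl X).neg_left, neg_add_cancel, exp_zero]⟩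

/-- The group generated by the exponentials. -/
def GW (W : Submodule ℂ (Mt r)) : Subgroup (Mt r)ˣ := Subgroup.closure (eU '' W)

/-- Conjugate under the group generated by the exponentials. -/
def Cj (W : Submodule ℂ (Mt r)) (a b : Mt r) : Prop :=
  ∃ g ∈ GW W, b = g.val * a * (g⁻¹).val

theorem eU_mem {X : Mt r} (h : X ∈ W) : eU X ∈ GW W := Subgroup.subset_closure ⟨X, h, rfl⟩

theorem Cj.refl (a : Mt r) : Cj W a a := ⟨1, one_mem _, by simp⟩

theorem Cj.symm {a b : Mt r} (h : Cj W a b) : Cj W b a := by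
  obtain ⟨g, hg, rfl⟩ := h
  exact ⟨g⁻¹, inv_mem hg, by simp [mul_assoc]⟩

theorem Cj.trans {a b c : Mt r} (h : Cj W a b) (h' : Cj W b c) : Cj W a c := by
  obtain ⟨g, hg, rfl⟩ := h
  obtain ⟨g', hg', rfl⟩ := h'
  exact ⟨g' * g, mul_mem hg' hg, by simp [mul_assoc]⟩

theorem Cj.exp {a b : Mt r} (h : Cj W a b) (c : ℂ) : Cj W (exp (c • a)) (exp (c • b)) := by
  obtain ⟨g, hg, rfl⟩ := h
  exact ⟨g, hg, by rw [← Matrix.exp_units_conj, mul_smul_comm, smul_mul_assoc]⟩

theorem hasSum_conj (X Z : Mt r) :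
    HasSum (fun n : ℕ => (n.factorial : ℂ)⁻¹ • (adL X ^ n) Z) (exp X * Z * exp (-X)) := by
  have h1 : Summable fun n : ℕ => ‖(n.factorial : ℂ)⁻¹ • X ^ n * Z‖ :=
    Summable.of_nonneg_of_le (fun _ => norm_nonneg _) (fun _ => norm_mul_le _ _)
      ((norm_expSeries_summable' (𝕂 := ℂ) X).mul_right _)
  have h2 := norm_expSeries_summable' (𝕂 := ℂ) (-X)
  have h3 := (summable_norm_sum_mul_antidiagonal_of_summable_norm h1 h2).of_norm.hasSum
  rw [← tsum_mul_tsum_eq_tsum_sum_antidiagonal_of_summable_norm h1 h2,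
    ((exp_series_hasSum_exp' (𝕂 := ℂ) X).mul_right Z).tsum_eq,
    (exp_series_hasSum_exp' (𝕂 := ℂ) (-X)).tsum_eq] at h3
  have e : adL X = LinearMap.mulLeft ℂ X + LinearMap.mulRight ℂ (-X) :=
    LinearMap.ext fun z => by simp [adL_apply, sub_eq_add_neg]
  refine HasSum.congr_fun h3 fun n => ?_
  rw [e, (LinearMap.commute_mulLeft_right X (-X)).add_pow', LinearMap.sum_apply, Finset.smul_sum]
  refine Finset.sum_congr rfl fun m hm => ?_
  rw [LinearMap.pow_mulLeft, LinearMap.pow_mulRight, ← Nat.cast_smul_eq_nsmul ℂ,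
    LinearMap.smul_apply, Module.End.mul_apply, LinearMap.mulRight_apply, LinearMap.mulLeft_apply,
    smul_mul_assoc, smul_mul_smul_comm, smul_smul, mul_assoc, 
    ← Finset.HasAntidiagonal.mem_antidiagonal.1 hm,
    Nat.cast_add_choose]
  congr 1
  have := Nat.cast_ne_zero (R := ℂ).2 (m.1 + m.2).factorial_ne_zero
  field_simp

theorem GW_conj (hW : ∀ a ∈ W, ∀ b ∈ W, a * b - b * a ∈ W) {g : (Mt r)ˣ} (hg : g ∈ GW W) :
    ∀ {z : Mt r}, z ∈ W → g.val * z * (g⁻¹).val ∈ W := by
  have h1 : ∀ X ∈ W, ∀ z ∈ W, exp X * z * exp (-X) ∈ W := fun X hX z hz =>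
    W.closed_of_finiteDimensional.mem_of_tendsto (hasSum_conj X z)
      (Filter.Eventually.of_forall fun s => W.sum_mem fun n hn => W.smul_mem _ (by
        clear hn
        induction n with
        | zero => exact hz
        | succ n ih => rw [pow_succ']; exact hW _ hX _ ih))
  induction hg using Subgroup.closure_induction'' with
  | mem x hx =>
    obtain ⟨X, hX, rfl⟩ := hx
    exact fun {_} hz => h1 X hX _ hz
  | inv_mem x hx =>
    obtain ⟨X, hX, rfl⟩ := hx
    intro z hz
    have := h1 (-X) (W.neg_mem hX) _ hz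
    rwa [neg_neg] at this
  | one => simp
  | mul x y _ _ hx hy =>
    intro z hz
    have := hx (hy hz)
    simpa only [_root_.mul_inv_rev, Units.val_mul, mul_assoc] using this

theorem cj_two {X Z : Mt r} (hX : X ∈ W) (h : adL X (adL X (adL X Z)) = 0) :
    Cj W Z (Z + adL X Z + (2 : ℂ)⁻¹ • adL X (adL X Z)) := by
  refine ⟨eU X, eU_mem hX, HasSum.unique ?_ (hasSum_conj X Z)⟩
  have h1 : HasSum (fun n : ℕ => (n.factorial : ℂ)⁻¹ • (adL X ^ n) Z) _ :=
    hasSum_sum_of_ne_finset_zero (s := Finset.range 3) fun n hn => by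
      obtain ⟨n, rfl⟩ := Nat.exists_eq_add_of_le' (not_lt.1 (mt Finset.mem_range.2 hn))
      rw [pow_add, Module.End.mul_apply, show (adL X ^ 3) Z = 0 from h, map_zero, smul_zero]
  simpa [Finset.sum_range_succ, pow_succ] using h1

theorem exp_eig {B e : Mt r} {c : ℂ} (h : B * e - e * B = c • e) :
    exp B * e = Complex.exp c • (e * exp B) := by
  have h1 : ∀ n : ℕ, (adL B ^ n) e = c ^ n • e := fun n => by
    induction n with
    | zero => simp
    | succ n ih => rw [pow_succ', Module.End.mul_apply, ih, map_smul, adL_apply, h, smul_smul,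
        pow_succ]
  have h2 := (hasSum_conj B e).unique (by
    simpa only [h1, smul_assoc] using (exp_series_hasSum_exp' (𝕂 := ℂ) c).smul_const e)
  rw [Complex.exp_eq_exp_ℂ, ← smul_mul_assoc, ← h2, mul_assoc,
    show exp (-B) * exp B = 1 from (eU B).inv_mul, mul_one]

theorem exists_curve {g : (Mt r)ˣ} (hg : g ∈ GW W) : ∃ γ : ℂ → (Mt r)ˣ,
    Differentiable ℂ (fun s => ((γ s).val, ((γ s)⁻¹).val)) ∧ γ 0 = 1 ∧ γ 1 = g ∧
      ∀ s, γ s ∈ GW W := by
  induction hg using Subgroup.closure_induction with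
  | mem x hx =>
    obtain ⟨X, hX, rfl⟩ := hx
    refine ⟨fun s => eU (s • X), fun s => ?_, Units.ext (by simp [eU]), by simp only [one_smul],
      fun s => eU_mem (W.smul_mem s hX)⟩
    refine (hasDerivAt_exp_smul_const X s).differentiableAt.prodMk ?_
    have := (hasDerivAt_exp_smul_const (-X) s).differentiableAt
    simp only [smul_neg] at this
    exact this
  | one => exact ⟨fun _ => 1, differentiable_const _, rfl, rfl, fun _ => one_mem _⟩
  | mul x y _ _ hx hy =>
    obtain ⟨a, a1, a2, a3, a4⟩ := hx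
    obtain ⟨b, b1, b2, b3, b4⟩ := hy
    refine ⟨fun s => a s * b s, ?_, by simp only [a2, b2, one_mul], by simp only [a3, b3],
      fun s => mul_mem (a4 s) (b4 s)⟩
    simp only [_root_.mul_inv_rev, Units.val_mul]
    exact (a1.fst.mul b1.fst).prodMk (b1.snd.mul a1.snd)
  | inv x _ hx =>
    obtain ⟨a, a1, a2, a3, a4⟩ := hx
    exact ⟨fun s => (a s)⁻¹, a1.snd.prodMk a1.fst, by simp only [a2, inv_one], by simp only [a3],
      fun s => inv_mem (a4 s)⟩

theorem common {ι : Type} (S : Finset ι) (Ψ : ι → Mt r × Mt r → ℂ)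
    (hΨ : ∀ j, Differentiable ℂ (Ψ j)) (h : ∀ j ∈ S, ∃ g ∈ GW W, Ψ j (g.val, (g⁻¹).val) ≠ 0) :
    ∃ g ∈ GW W, ∀ j ∈ S, Ψ j (g.val, (g⁻¹).val) ≠ 0 := by
  classical
  induction S using Finset.induction_on with
  | empty => exact ⟨1, one_mem _, by simp⟩
  | insert j S _ ih =>
    obtain ⟨g, hg, k1⟩ := ih fun i hi => h i (Finset.mem_insert_of_mem hi)
    obtain ⟨g', hg', k2⟩ := h j (Finset.mem_insert_self _ _)
    obtain ⟨γ, c1, c2, c3, c4⟩ := exists_curve (mul_mem hg' (inv_mem hg))
    have c5 : Differentiable ℂ fun s => ((γ s * g).val, ((γ s * g)⁻¹).val) := by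
      simp only [_root_.mul_inv_rev, Units.val_mul]
      exact (c1.fst.mul_const g.val).prodMk (c1.snd.const_mul (g⁻¹).val)
    by_contra hn
    have c6 := Differentiable.finsetProd (u := S) fun i _ => (hΨ i).comp c5
    rcases AnalyticOnNhd.eq_zero_or_eq_zero_of_mul_eq_zero
      (((hΨ j).comp c5).differentiableOn.analyticOnNhd isOpen_univ)
      (c6.differentiableOn.analyticOnNhd isOpen_univ) (fun s _ => by
        by_contra h0
        obtain ⟨k3, k4⟩ := mul_ne_zero_iff.1 h0
        rw [Finset.prod_apply, Finset.prod_ne_zero_iff] at k4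
        exact hn ⟨_, mul_mem (c4 s) hg, Finset.forall_mem_insert _ _ _ |>.2 ⟨k3, k4⟩⟩)
      isPreconnected_univ with e | e
    · have := e 1 trivial
      rw [Function.comp_apply, c3, inv_mul_cancel_right] at this
      exact k2 this
    · have := e 0 trivial
      rw [Finset.prod_apply, Finset.prod_eq_zero_iff] at this
      obtain ⟨i, hi, e⟩ := this
      rw [Function.comp_apply, c2, one_mul] at e
      exact k1 i hi e

end Pool.Agent.GR.OG
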