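import Pool.Agent.Lib.MP_aa40d3_nt.OG.Stmt
import Pool.Agent.Lib.MP_aa40d3_nt.OG.Com
import Pool.Agent.Lib.MP_aa40d3_nt.OL.Cst
import Pool.Agent.Lib.MP_aa40d3_nt.OL.Fin

/-! One generic singular point; residues in an irreducible Lie algebra. -/

open Polynomial Matrix

namespace Pool.Agent.GR.OG

open OP

variable {n r : ℕ}

theorem polW_span {g : Submodule ℂ (Matrix (Fin r) (Fin r) ℂ)} (k : ℕ) :
    ∀ Φ ∈ polW g, (∀ a b, (Φ a b).degree < k) →
      Φ ∈ Submodule.span ℂ[X] {Ψ | ∃ a ∈ g, Ψ = a.map C} := by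
  induction k with
  | zero =>
    intro Φ _ h
    rw [show Φ = 0 from Matrix.ext fun a b => by simpa using h a b]
    exact Submodule.zero_mem _
  | succ k ih =>
    intro Φ hΦ h
    have e : Φ = (X : ℂ[X]) • Φ.map divX + (Φ.map (eval 0)).map C := Matrix.ext fun a b => by
      rw [Matrix.add_apply, Matrix.smul_apply, Matrix.map_apply, Matrix.map_apply, Matrix.map_apply,
        smul_eq_mul, ← coeff_zero_eq_eval_zero, X_mul_divX_add]
    have h1 : ∀ z : ℂ, z ≠ 0 → (Φ.map divX).map (eval z) ∈ g := fun z hz => by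
      rw [← g.smul_mem_iff hz, show z • (Φ.map divX).map (eval z) =
        Φ.map (eval z) - Φ.map (eval 0) from Matrix.ext fun a b => by
          have := congrArg (eval z) (X_mul_divX_add (Φ a b))
          simp only [eval_add, eval_mul, eval_X, eval_C, coeff_zero_eq_eval_zero] at this
          simp only [Matrix.smul_apply, Matrix.sub_apply, Matrix.map_apply, smul_eq_mul]
          exact eq_sub_of_add_eq this]
      exact g.sub_mem (hΦ z) (hΦ 0)
    have h2 : Φ.map divX ∈ polW g := fun z => by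
      by_cases hz : z = 0
      · rw [hz, show (Φ.map divX).map (eval 0) = (Φ.map derivative).map (eval 0) from
          Matrix.ext fun a b => by
            simp only [Matrix.map_apply, ← coeff_zero_eq_eval_zero, coeff_divX, coeff_derivative]
            simp]
        exact der_mem hΦ 0
      · exact h1 z hz
    rw [e]
    refine Submodule.add_mem _ (Submodule.smul_mem _ _ (ih _ h2 fun a b => ?_))
      (Submodule.subset_span ⟨_, hΦ 0, rfl⟩)
    rw [Matrix.map_apply, degree_lt_iff_coeff_zero]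
    intro m hm
    rw [coeff_divX]
    exact (degree_lt_iff_coeff_zero _ _).1 (h a b) _ (by omega)

theorem LieSys.min {t : Fin n → ℂ} {A : Fin n → Matrix (Fin r) (Fin r) ℂ}
    {g : Submodule ℂ (Matrix (Fin r) (Fin r) ℂ)} (h : LieSys t A g) :
    ∀ V ≤ polW g, Stab t A V → V = ⊥ ∨ ∀ Φ ∈ polW g, ∃ q : ℂ[X], q ≠ 0 ∧ q • Φ ∈ V := by
  intro V hV hs
  refine (h.2.2.2.2 V (fun Φ hΦ => hV hΦ) hs).imp_right fun k Φ hΦ => ?_
  obtain ⟨m, hm⟩ : ∃ m : ℕ, ∀ a b, (Φ a b).degree < m :=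
    ⟨(Finset.univ.sup fun p : Fin r × Fin r => (Φ p.1 p.2).natDegree) + 1, fun a b =>
      degree_le_natDegree.trans_lt (Nat.cast_lt.2 (Nat.lt_succ_of_le (Finset.le_sup
        (f := fun p : Fin r × Fin r => (Φ p.1 p.2).natDegree) (Finset.mem_univ (a, b)))))⟩
  have h1 := polW_span m Φ hΦ hm
  clear hm hΦ
  induction h1 using Submodule.span_induction with
  | mem Ψ hΨ =>
    obtain ⟨a, ha, rfl⟩ := hΨ
    exact k a ha
  | zero => exact ⟨1, one_ne_zero, by rw [smul_zero]; exact V.zero_mem⟩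
  | add Ψ Θ _ _ h2 h3 =>
    obtain ⟨p, hp, h2⟩ := h2
    obtain ⟨q, hq, h3⟩ := h3
    refine ⟨p * q, mul_ne_zero hp hq, ?_⟩
    rw [smul_add, mul_smul p q Θ, mul_comm, mul_smul]
    exact V.add_mem (V.smul_mem _ h2) (V.smul_mem _ h3)
  | smul c Ψ _ h2 =>
    obtain ⟨p, hp, h2⟩ := h2
    exact ⟨p, hp, by rw [smul_comm]; exact V.smul_mem _ h2⟩

theorem LieSys.opp [NeZero r] {t : Fin n → ℂ} {A : Fin n → Matrix (Fin r) (Fin r) ℂ}
    {g : Submodule ℂ (Matrix (Fin r) (Fin r) ℂ)} (h : LieSys t A g) {S : Finset (Fin n)}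
    (hS : S.Nonempty) (h2 : ∀ j ∈ S, Two (A j)) :
    ∃ W, LieSub t A W ∧ ∃ (d s : ℕ), ∃ Φ ∈ W, ∃ (U : Matrix (Fin r) (Fin (s + 1)) ℂ[X])
      (F : Matrix (Fin (s + 1)) (Fin r) ℂ[X]), Φ ^ (d + 2) = 0 ∧ Φ ^ (d + 1) = U * F ∧
        ∀ j ∈ S, OppAt U F (t j) (A j) := by
  have hL : LieW g := ⟨h.1, h.2.1, h.2.2.1⟩
  obtain ⟨E, hE, d, s, U, F, e1, e2, e3⟩ := common_opp hL
    (fun I hI hi => eq_of_min hI (norm_of_add hi h.2.2.2.1) h.min) S hS
    (fun j => (2 * Real.pi * Complex.I : ℂ) • A j) (fun j hj => ⟨by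
      obtain ⟨c, hc⟩ := h.2.2.2.1 j
      exact ⟨2 * Real.pi * Complex.I * c, by
        rw [mul_smul _ c, ← smul_sub]
        exact g.smul_mem _ hc⟩, h2 j hj⟩)
  have ec : ∀ {l m : Type} (P : Matrix l m ℂ) (z : ℂ), (P.map C).map (eval z) = P := fun P z =>
    Matrix.ext fun a b => eval_C
  refine ⟨polW g, hL.lieSub (norm_of_add hL.lie h.2.2.2.1) h.min, d, s, E.map C, C_mem_polW.2 hE,
    U.map C, F.map C, ?_, ?_, fun j hj => ?_⟩
  · rw [← RingHom.mapMatrix_apply, ← map_pow, e1, map_zero]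
  · rw [← RingHom.mapMatrix_apply, ← map_pow, e2, RingHom.mapMatrix_apply, Matrix.map_mul]
  · rw [OppAt, ec, ec]
    exact e3 j hj

theorem finalG (r : ℕ) : ∃ k : ℕ, ∀ (n : ℕ) (R : Type) [CommRing R]
    [Algebra.FiniteType ℤ R] (ι : R →+* ℂ), Function.Injective ι → ∀ (t : Fin n → R)
    (A : Fin n → Matrix (Fin r) (Fin r) R) (o : Fin n) (S : Finset (Fin n)) (P₀ : ℕ),
    Function.Injective t →
    Transcendental (IntermediateField.adjoin ℚ {x : ℂ | ∃ j, j ≠ o ∧ x = ι (t j)}) (ι (t o)) →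
    Irred (fun i => ι (t i)) (fun i => (A i).map ι) →
    ∀ g, LieSys (fun i => ι (t i)) (fun i => (A i).map ι) g → Two ((A o).map ι) → k ≤ S.card →
    (∀ j ∈ S, Two ((A j).map ι)) →
    (∀ p : ℕ, p.Prime → P₀ < p → ∀ m : Ideal R, m.IsMaximal → (p : R) ∈ m →
      NilCurv p (fun i => Ideal.Quotient.mk m (t i)) fun i => (A i).map (Ideal.Quotient.mk m)) →
    ∀ φ : R →+* ℂ, AlgSol (fun i => φ (t i)) fun i => (A i).map φ := by
  classical
  rcases Nat.eq_zero_or_pos r with rfl | hr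
  · exact ⟨0, fun n R _ _ ι hι t A o S P₀ _ _ _ g _ ho =>
      absurd ⟨0, Subsingleton.elim _ _⟩ (ho 0)⟩
  have : NeZero r := ⟨hr.ne'⟩
  obtain ⟨k, hk⟩ := finalL r
  refine ⟨k, fun n R _ _ ι hι t A o S P₀ ht hind hpr g hg ho hS hSr hp φ => ?_⟩
  obtain ⟨W, hW, d, s, Φ, hΦ, U, F, e1, e2, e3⟩ := hg.opp (S := insert o S)
    (Finset.insert_nonempty _ _) (Finset.forall_mem_insert _ _ _ |>.2 ⟨ho, hSr⟩)
  exact hk n R ι hι t A o S P₀ ht hind hpr W hW d s Φ hΦ U F e1 e2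
    (e3 o (Finset.mem_insert_self _ _)) hS (fun j hj => e3 j (Finset.mem_insert_of_mem hj)) hp φ

end Pool.Agent.GR.OG
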