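import Pool.Agent.Lib.MP_aa40d3_nt.OG.Fin
import Pool.Agent.Lib.MP_aa40d3_nt.OP.Stmt

/-! Vanishing curvature: the residues are semisimple. -/

open Polynomial Matrix
open scoped Matrix.Norms.Operator

namespace Pool.Agent.GR.OG

open OP

variable {n r : ℕ}

theorem itN_eval {k : Type} [CommRing k] (t : Fin n → k) (A : Fin n → Matrix (Fin r) (Fin r) k)
    (i : Fin n) (m : ℕ) : (itN t A m).map (eval (t i)) =
      (∏ j ∈ Finset.univ.erase i, (t i - t j)) ^ m •
        aeval (A i) (∏ j ∈ Finset.range m, (X - C (j : k))) := by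
  have h1 : (dl t).eval (t i) = 0 := by
    rw [dl, eval_prod]
    exact Finset.prod_eq_zero (Finset.mem_univ i) (by simp)
  have h2 : (derivative (dl t)).eval (t i) = ∏ j ∈ Finset.univ.erase i, (t i - t j) := by
    rw [dl, ← Finset.mul_prod_erase _ _ (Finset.mem_univ i), derivative_mul]
    simp [eval_prod]
  have h3 : (pm t A).map (eval (t i)) = (∏ j ∈ Finset.univ.erase i, (t i - t j)) • A i := by
    ext a b
    rw [map_apply, cyca_pm_apply, eval_finsetSum, Finset.sum_eq_single i]
    · simp [eval_prod]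
    · intro k _ hk
      rw [eval_mul, eval_prod, Finset.prod_eq_zero (i := i)
        (Finset.mem_erase.2 ⟨hk.symm, Finset.mem_univ i⟩) (by simp), zero_mul]
    · exact fun h => absurd (Finset.mem_univ i) h
  induction m with
  | zero => simp [itN]
  | succ m ih =>
    have e : (itN t A (m + 1)).map (eval (t i)) =
        (itN t A m).map (eval (t i)) * (pm t A).map (eval (t i)) -
          ((m : k) * (derivative (dl t)).eval (t i)) • (itN t A m).map (eval (t i)) := by
      ext a b
      simp [itN, h1, Matrix.mul_apply, eval_finsetSum]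
      ring
    rw [e, ih, h2, h3, Finset.prod_range_succ, map_mul, map_sub, aeval_X, aeval_C,
      Algebra.algebraMap_eq_smul_one, mul_sub, smul_sub, smul_mul_smul_comm, mul_smul_comm, mul_one,
      smul_smul, smul_smul, pow_succ]
    congr 2
    ring

theorem nil_zero {k : Type} [Field k] {B : Matrix (Fin r) (Fin r) k} {q P : k[X]}
    (hq : q.Separable) (h0 : aeval B q = 0) (h : IsNilpotent (aeval B P)) : aeval B P = 0 := by
  obtain ⟨m, hm⟩ := h
  obtain ⟨c, hc⟩ := (hq.squarefree.squarefree_of_dvd (minpoly.dvd k B h0)).isRadical m P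
    (minpoly.dvd k B (by rw [map_pow, hm]))
  rw [hc, map_mul, minpoly.aeval, zero_mul]

theorem aeval_mp {R S : Type} [CommRing R] [CommRing S] (φ : R →+* S)
    (B : Matrix (Fin r) (Fin r) R) (P : R[X]) :
    aeval (B.map φ) (P.map φ) = (aeval B P).map φ := by
  induction P using Polynomial.induction_on' with
  | add p q hp hq => rw [Polynomial.map_add, map_add, map_add, hp, hq, Matrix.map_add _ (map_add φ)]
  | monomial m a =>
    rw [Polynomial.map_monomial, aeval_monomial, aeval_monomial, Matrix.map_mul,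
      ← RingHom.mapMatrix_apply φ (B ^ m), map_pow, RingHom.mapMatrix_apply]
    congr 1
    ext a b
    by_cases h : a = b <;> simp [Matrix.algebraMap_matrix_apply, h]

theorem exists_sep {R : Type} [CommRing R] [Algebra.FiniteType ℤ R] (ι : R →+* ℂ)
    (hι : Function.Injective ι) {t : Fin n → R} (ht : Function.Injective t)
    {A : Fin n → Matrix (Fin r) (Fin r) R} {P₀ : ℕ}
    (hp : ∀ p : ℕ, p.Prime → P₀ < p → ∀ m : Ideal R, m.IsMaximal → (p : R) ∈ m →
      itN (fun i => Ideal.Quotient.mk m (t i)) (fun i => (A i).map (Ideal.Quotient.mk m)) p = 0)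
    (i : Fin n) : ∃ q : ℂ[X], q.Separable ∧ aeval ((A i).map ι) q = 0 := by
  have : IsDomain R := hι.isDomain ι
  have : CharZero R := ι.charZero
  let K := FractionRing R
  let κ : K →+* ℂ := IsFractionRing.lift hι
  obtain ⟨q, N, q1, -, q2⟩ := exists_squarefree_dvd_pow_of_ne_zero
    (minpoly.ne_zero_of_finite K ((A i).map (algebraMap R K)))
  obtain ⟨b, hb, e⟩ := IsLocalization.integerNormalization_spec (nonZeroDivisors R) q
  set q₀ := IsLocalization.integerNormalization (nonZeroDivisors R) q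
  have h1 : IsNilpotent (aeval (A i) q₀) := by
    obtain ⟨c, hc⟩ := q2
    refine ⟨N, Matrix.map_injective (IsFractionRing.injective R K) ?_⟩
    beta_reduce
    rw [← map_pow, ← aeval_mp, Polynomial.map_pow, e, _root_.smul_pow, hc,
      ← IsScalarTower.algebraMap_smul K, map_smul, map_mul, minpoly.aeval, zero_mul, smul_zero, Matrix.map_zero _ (map_zero _)]
  have h2 : aeval (A i) q₀ = 0 := by
    have := cart_intJacobson
    have hJ : IsJacobsonRing R := isJacobsonRing_of_finiteType (A := ℤ)
    ext a c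
    have h0 : (∏ j ∈ Finset.univ.erase i, (t i - t j)) * (P₀.factorial : R) ≠ 0 :=
      mul_ne_zero (Finset.prod_ne_zero_iff.2 fun j hj =>
        sub_ne_zero.2 fun h => Finset.ne_of_mem_erase hj (ht h).symm)
        (Nat.cast_ne_zero.2 P₀.factorial_ne_zero)
    refine (mul_eq_zero.1 ?_).resolve_right h0
    rw [← Ideal.mem_bot, ← hJ.out (Ideal.isPrime_bot (α := R)).isRadical]
    refine Ideal.mem_sInf.2 fun m hm => ?_
    have hm' : m.IsMaximal := hm.2
    let _ := Ideal.Quotient.field m
    by_contra hn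
    have k1 : (∏ j ∈ Finset.univ.erase i, (t i - t j)) ∉ m := fun h =>
      hn (m.mul_mem_left _ (m.mul_mem_right _ h))
    have k2 : (P₀.factorial : R) ∉ m := fun h => hn (m.mul_mem_left _ (m.mul_mem_left _ h))
    have k3 : Module.Finite ℤ (R ⧸ m) := finite_of_finite_type_of_isJacobsonRing ℤ (R ⧸ m)
    obtain ⟨p, hc⟩ := CharP.exists (R ⧸ m)
    have k4 : p.Prime := (CharP.char_is_prime_or_zero (R ⧸ m) p).resolve_right fun h => by
      subst h
      have := CharP.charP_to_charZero (R ⧸ m)
      exact Int.not_isField ((Algebra.IsIntegral.isField_iff_isField (R := ℤ) (S := R ⧸ m)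
        (RingHom.injective_int _)).2 (Field.toIsField _))
    have k5 : (p : R) ∈ m := by
      rw [← Ideal.Quotient.eq_zero_iff_mem, map_natCast, CharP.cast_eq_zero]
    have k6 : P₀ < p := lt_of_not_ge fun h => by
      obtain ⟨d, hd⟩ := Nat.dvd_factorial k4.pos h
      exact k2 (by rw [hd, Nat.cast_mul]; exact m.mul_mem_right _ k5)
    have k7 := itN_eval (fun i => Ideal.Quotient.mk m (t i))
      (fun i => (A i).map (Ideal.Quotient.mk m)) i p
    rw [hp p k4 k6 m hm' k5, Matrix.map_zero _ eval_zero, eq_comm, smul_eq_zero,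
      or_iff_right (pow_ne_zero _ fun h => k1 (by
        rw [← Ideal.Quotient.eq_zero_iff_mem, map_prod, ← h]
        simp only [map_sub]))] at k7
    have k8 := nil_zero (P := q₀.map (Ideal.Quotient.mk m)) (separable_prod_X_sub_C_iff'.2
      fun x hx y hy => CharP.natCast_injOn_Iio (R ⧸ m) p (Finset.mem_range.1 hx)
        (Finset.mem_range.1 hy)) k7 (by
      rw [aeval_mp]
      exact h1.map (Ideal.Quotient.mk m).mapMatrix)
    rw [aeval_mp] at k8
    exact hn (m.mul_mem_right _ (Ideal.Quotient.eq_zero_iff_mem.1 (congrFun (congrFun k8 a) c)))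
  refine ⟨q.map κ, (PerfectField.separable_iff_squarefree.2 q1).map, ?_⟩
  have h3 : aeval ((A i).map (algebraMap R K)) q = 0 := by
    have := aeval_mp (algebraMap R K) (A i) q₀
    rw [h2, e, Matrix.map_zero _ (map_zero _), ← IsScalarTower.algebraMap_smul K, map_smul,
      smul_eq_zero] at this
    exact this.resolve_left (IsFractionRing.to_map_ne_zero_of_mem_nonZeroDivisors hb)
  rw [show (A i).map ι = ((A i).map (algebraMap R K)).map κ from
    Matrix.ext fun a b => (IsFractionRing.lift_algebraMap hι _).symm, aeval_mp, h3,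
    Matrix.map_zero _ (map_zero _)]

theorem two_of_sep {B : Matrix (Fin r) (Fin r) ℂ} {q : ℂ[X]} (hq : q.Separable)
    (h0 : aeval B q = 0) (h : Ram B) : Two B := fun c hc => by
  have h1 : NormedSpace.exp ((2 * Real.pi * Complex.I : ℂ) • B) ∈ (aeval (R := ℂ) B).range :=
    NormedSpace.exp_mem (R := ℂ) (s := (aeval (R := ℂ) B).range)
      (Subalgebra.toSubmodule (aeval (R := ℂ) B).range).closed_of_finiteDimensional
      (Subalgebra.smul_mem _ ((AlgHom.mem_range _).2 ⟨X, aeval_X B⟩) _)
  obtain ⟨P, hP⟩ := (aeval (R := ℂ) B).range.sub_mem h1 (Subalgebra.smul_mem _ (one_mem _) c)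
  rw [← hP] at hc
  exact h c (sub_eq_zero.1 (hP.symm.trans (nil_zero hq h0 hc)))

theorem nil_of_zero {k : Type} [CommRing k] {t : Fin n → k} {A : Fin n → Matrix (Fin r) (Fin r) k}
    {p : ℕ} (h : itN t A p = 0) : NilCurv p t A := by
  have h1 : ∀ m, itN t A (p + m) = 0 := fun m => by
    induction m with
    | zero => exact h
    | succ m ih =>
      rw [← add_assoc, itN, ih, Matrix.map_zero _ derivative_zero, smul_zero, smul_zero, zero_mul,
        sub_zero, add_zero]
  rcases Nat.eq_zero_or_pos r with rfl | hr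
  · exact Subsingleton.elim _ _
  · obtain ⟨m, hm⟩ := Nat.exists_eq_add_of_le (Nat.le_mul_of_pos_right p hr)
    rw [NilCurv, hm, h1]

theorem finalZ (r : ℕ) : ∃ k : ℕ, ∀ (n : ℕ) (R : Type) [CommRing R]
    [Algebra.FiniteType ℤ R] (ι : R →+* ℂ), Function.Injective ι → ∀ (t : Fin n → R)
    (A : Fin n → Matrix (Fin r) (Fin r) R) (o : Fin n) (S : Finset (Fin n)) (P₀ : ℕ),
    Function.Injective t →
    Transcendental (IntermediateField.adjoin ℚ {x : ℂ | ∃ j, j ≠ o ∧ x = ι (t j)}) (ι (t o)) →
    Irred (fun i => ι (t i)) (fun i => (A i).map ι) →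
    ∀ g, LieSys (fun i => ι (t i)) (fun i => (A i).map ι) g → Ram ((A o).map ι) → k ≤ S.card →
    (∀ j ∈ S, Ram ((A j).map ι)) →
    (∀ p : ℕ, p.Prime → P₀ < p → ∀ m : Ideal R, m.IsMaximal → (p : R) ∈ m →
      itN (fun i => Ideal.Quotient.mk m (t i)) (fun i => (A i).map (Ideal.Quotient.mk m)) p = 0) →
    ∀ φ : R →+* ℂ, AlgSol (fun i => φ (t i)) fun i => (A i).map φ := by
  obtain ⟨k, hk⟩ := finalG r
  refine ⟨k, fun n R _ _ ι hι t A o S P₀ ht hind hpr g hg ho hS hSr hp => ?_⟩
  have h2 : ∀ j, Ram ((A j).map ι) → Two ((A j).map ι) := fun j h => by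
    obtain ⟨q, h1, h2⟩ := exists_sep ι hι ht hp j
    exact two_of_sep h1 h2 h
  exact hk n R ι hι t A o S P₀ ht hind hpr g hg (h2 o ho) hS (fun j hj => h2 j (hSr j hj))
    fun p h1 h3 m h4 h5 => nil_of_zero (hp p h1 h3 m h4 h5)

end Pool.Agent.GR.OG
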